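import Mathlib

/-!
# Non-equivalent parameterized squares (MP_435f72_co, Q1, disproof)

For every `K ≥ 1` there is a string `s` of length `3K` over `K + 1` letters with
`PS(s) ≥ ⌊(K+1)²/4⌋` and `PS'(s) ≥ ⌊(K+1)²/4⌋ - 1`. So `PS(s) < n` fails, no bound `C n` with an
absolute constant `C` holds, and the known bound `PS(s) < σ n` is sharp up to a constant factor.
-/

set_option autoImplicit false

namespace Pool.Agent.Results.MP_435f72_co.QuadraticCount

/-- Parameterized equivalence: a bijection of the alphabet maps `x` letter by letter to `y`. -/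
def ParamEq {A : Type*} (x y : List A) : Prop := ∃ f : Equiv.Perm A, x.map f = y

/-- Parameterized equivalence as an equivalence relation on strings. -/
def paramSetoid (A : Type*) : Setoid (List A) where
  r := ParamEq
  iseqv :=
    { refl := fun x => ⟨Equiv.refl A, by simp⟩
      symm := fun {x y} ⟨f, hf⟩ => ⟨f.symm, by rw [← hf, List.map_map]; simp⟩
      trans := fun {x y z} ⟨f, hf⟩ ⟨g, hg⟩ => ⟨f.trans g, by rw [← hg, ← hf, List.map_map]; rfl⟩ }

/-- A parameterized square: a non-empty string `x ++ y` with `x ≈ y`. -/
def IsParamSquare {A : Type*} (w : List A) : Prop :=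
  ∃ x y : List A, w = x ++ y ∧ x ≠ [] ∧ ParamEq x y

/-- A parameterized square which is not an ordinary square. -/
def IsProperParamSquare {A : Type*} (w : List A) : Prop :=
  ∃ x y : List A, w = x ++ y ∧ x ≠ [] ∧ ParamEq x y ∧ x ≠ y

/-- `PS(s)`: the number of classes of parameterized squares that are (contiguous) substrings
of `s`. -/
noncomputable def PS {A : Type*} (s : List A) : ℕ :=
  Set.ncard (Quotient.mk (paramSetoid A) '' {w : List A | w <:+: s ∧ IsParamSquare w})

/-- `PS'(s)`: the same count restricted to parameterized squares `w w'` with `w ≠ w'`. -/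
noncomputable def PS' {A : Type*} (s : List A) : ℕ :=
  Set.ncard (Quotient.mk (paramSetoid A) '' {w : List A | w <:+: s ∧ IsProperParamSquare w})

section Construction

variable (K : ℕ)

/-- The letters of the string: `t mod (K+1)`, with one value skipped at `t = 2K`. -/
def num (t : ℕ) : ℕ := if t < 2 * K then t % (K + 1) else (t + 1) % (K + 1)

theorem num_lt (t : ℕ) : num K t < K + 1 := by
  unfold num
  split_ifs <;> exact Nat.mod_lt _ (by omega)

/-- letters in `Fin (K + 1)` -/
def letter (t : ℕ) : Fin (K + 1) := ⟨num K t, num_lt K t⟩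

/-- the window of length `L` at position `i` -/
def win (i L : ℕ) : List (Fin (K + 1)) := (List.range L).map (fun j => letter K (i + j))

theorem win_length (i L : ℕ) : (win K i L).length = L := by simp [win]

theorem win_append (i L M : ℕ) : win K i (L + M) = win K i L ++ win K (i + L) M := by
  unfold win
  rw [List.range_add, List.map_append, List.map_map]
  congr 1
  apply List.map_congr_left
  intro t _
  simp [add_assoc]

theorem win_infix {i L N : ℕ} (h : i + L ≤ N) : win K i L <:+: win K 0 N := by
  obtain ⟨R, rfl⟩ : ∃ R, N = i + L + R := ⟨N - (i + L), by omega⟩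
  rw [win_append, win_append, zero_add]
  exact ⟨_, _, rfl⟩

theorem win_getElem? (i L : ℕ) {j : ℕ} (hj : j < L) :
    (win K i L)[j]? = some (letter K (i + j)) := by
  simp [win, List.getElem?_map, List.getElem?_range hj]

theorem mod_ne {m a b : ℕ} (h : a < b) (h' : b < a + m) : a % m ≠ b % m := by
  intro e
  have hm : 0 < m := by omega
  have h1 : (b - a) % m = 0 := Nat.sub_mod_eq_zero_of_mod_eq e.symm
  have h2 : (b - a) % m = b - a := Nat.mod_eq_of_lt (by omega)
  omega

/-- Two positions of the string at distance less than `K` carry different letters. -/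
theorem letter_ne {a b : ℕ} (h : a < b) (h' : b < a + K) : letter K a ≠ letter K b := by
  intro e
  have e' : num K a = num K b := by
    have := congrArg Fin.val e
    exact this
  unfold num at e'
  split_ifs at e' with c d d
  · exact mod_ne h (by omega) e'
  · exact mod_ne (show a < b + 1 by omega) (by omega) e'
  · omega
  · exact mod_ne (show a + 1 < b + 1 by omega) (by omega) e'

theorem letter_inj {a b : ℕ} (e : letter K a = letter K b) (h : a < b + K) (h' : b < a + K) :
    a = b := by
  rcases lt_trichotomy a b with c | c | c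
  · exact absurd e (letter_ne K c h')
  · exact c
  · exact absurd e.symm (letter_ne K c h)

/-- Two windows of the same length at most `K` are parameterized equivalent. -/
theorem win_paramEq {i i' k : ℕ} (hk : k ≤ K) : ParamEq (win K i k) (win K i' k) := by
  obtain ⟨f, hf⟩ := Equiv.Perm.exists_extending_pair
    (fun j : Fin k => letter K (i + j)) (fun j : Fin k => letter K (i' + j))
    (fun a b e => Fin.ext (by
      have := letter_inj K e (by have := a.2; have := b.2; omega)
        (by have := a.2; have := b.2; omega)
      omega))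
    (fun a b e => Fin.ext (by
      have := letter_inj K e (by have := a.2; have := b.2; omega)
        (by have := a.2; have := b.2; omega)
      omega))
  refine ⟨f, ?_⟩
  unfold win
  rw [List.map_map]
  apply List.map_congr_left
  intro j hj
  exact hf ⟨j, List.mem_range.1 hj⟩

/-- Equivalent windows have the same equalities between their letters. -/
theorem win_eq_iff {i i' L : ℕ} (h : ParamEq (win K i L) (win K i' L)) {a b : ℕ} (ha : a < L)
    (hb : b < L) :
    letter K (i + a) = letter K (i + b) ↔ letter K (i' + a) = letter K (i' + b) := by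
  obtain ⟨f, hf⟩ := h
  have h1 : ∀ j < L, f (letter K (i + j)) = letter K (i' + j) := by
    intro j hj
    have := congrArg (fun l => l[j]?) hf
    simp only [List.getElem?_map] at this
    rw [win_getElem? K i L hj, win_getElem? K i' L hj] at this
    simpa using this
  rw [← h1 a ha, ← h1 b hb, f.injective.eq_iff]

theorem eq_shift {t : ℕ} (h : 2 * K ≤ t) (h' : t < 3 * K) : letter K (t - K) = letter K t := by
  apply Fin.ext
  show num K (t - K) = num K t
  unfold num
  rw [if_pos (by omega), if_neg (by omega), show t + 1 = (t - K) + (K + 1) by omega,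
    Nat.add_mod_right]

theorem ne_shift {t : ℕ} (hK : 1 ≤ K) (h : K ≤ t) (h' : t < 2 * K) :
    letter K (t - K) ≠ letter K t := by
  intro e
  have e' : num K (t - K) = num K t := congrArg Fin.val e
  unfold num at e'
  rw [if_pos (by omega), if_pos h'] at e'
  exact mod_ne (show t - K < t by omega) (by omega) e'

/-- The windows used for the lower bound. -/
def pairs : Finset (Σ _ : ℕ, ℕ) :=
  (Finset.range (K + 1)).sigma (fun k => Finset.Ioc (2 * K - 2 * k) K)

theorem mem_pairs {p : Σ _ : ℕ, ℕ} :
    p ∈ pairs K ↔ p.1 ≤ K ∧ 2 * K < p.2 + 2 * p.1 ∧ p.2 ≤ K := by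
  unfold pairs
  rw [Finset.mem_sigma, Finset.mem_range, Finset.mem_Ioc]
  omega

/-- the window belonging to a pair -/
def pairWin (p : Σ _ : ℕ, ℕ) : List (Fin (K + 1)) := win K p.2 (2 * p.1)

theorem pairWin_inj (hK : 1 ≤ K) {p q : Σ _ : ℕ, ℕ} (hp : p ∈ pairs K) (hq : q ∈ pairs K)
    (h : ParamEq (pairWin K p) (pairWin K q)) : p = q := by
  rw [mem_pairs] at hp hq
  obtain ⟨k, i⟩ := p
  obtain ⟨k', i'⟩ := q
  simp only at hp hq
  unfold pairWin at h
  simp only at h
  have hlen : k = k' := by
    obtain ⟨f, hf⟩ := h
    have := congrArg List.length hf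
    rw [List.length_map, win_length, win_length] at this
    omega
  subst hlen
  -- two windows of the same length at different positions are not equivalent
  have key : ∀ a b : ℕ, a < b → (2 * K < b + 2 * k ∧ b ≤ K) →
      ¬ ParamEq (win K a (2 * k)) (win K b (2 * k)) := by
    intro a b hab hb hpe
    have := win_eq_iff K hpe (a := K - b) (b := 2 * K - b) (by omega) (by omega)
    rw [show b + (K - b) = 2 * K - K by omega, show b + (2 * K - b) = 2 * K by omega] at this
    have h1 := this.2 (eq_shift K (by omega) (by omega))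
    rw [show a + (K - b) = (a + (2 * K - b)) - K by omega] at h1
    exact ne_shift K hK (t := a + (2 * K - b)) (by omega) (by omega) h1
  rcases lt_trichotomy i i' with c | c | c
  · exact absurd h (key i i' c (by omega))
  · rw [c]
  · obtain ⟨f, hf⟩ := h
    exact absurd ⟨f.symm, by rw [← hf, List.map_map]; simp⟩ (key i' i c (by omega))

theorem pairWin_square {p : Σ _ : ℕ, ℕ} (hp : p ∈ pairs K) :
    pairWin K p <:+: win K 0 (3 * K) ∧ IsParamSquare (pairWin K p) := by
  rw [mem_pairs] at hp
  obtain ⟨k, i⟩ := p
  simp only at hp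
  refine ⟨win_infix K (by simp only; omega), win K i k, win K (i + k) k, ?_, ?_,
    win_paramEq K hp.1⟩
  · show win K i (2 * k) = _
    rw [two_mul, win_append]
  · intro h
    have := congrArg List.length h
    rw [win_length] at this
    simp at this
    omega

theorem pairWin_proper {p : Σ _ : ℕ, ℕ} (hp : p ∈ (pairs K).erase ⟨K, K⟩) :
    pairWin K p <:+: win K 0 (3 * K) ∧ IsProperParamSquare (pairWin K p) := by
  rw [Finset.mem_erase, mem_pairs] at hp
  obtain ⟨k, i⟩ := p
  obtain ⟨hne, hp⟩ := hp
  simp only at hp
  refine ⟨win_infix K (by simp only; omega), win K i k, win K (i + k) k, ?_, ?_,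
    win_paramEq K hp.1, ?_⟩
  · show win K i (2 * k) = _
    rw [two_mul, win_append]
  · intro h
    have := congrArg List.length h
    rw [win_length] at this
    simp at this
    omega
  · intro h
    have h0 := congrArg (fun l => l[0]?) h
    rw [win_getElem? K i k (by omega), win_getElem? K (i + k) k (by omega), add_zero,
      add_zero] at h0
    have h1 : letter K i = letter K (i + k) := by simpa using h0
    by_cases hk : k < K
    · exact letter_ne K (by omega) (by omega) h1
    · have hk' : k = K := by omega
      have hi : i < K := by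
        by_contra hcon
        apply hne
        have : i = K := by omega
        rw [this, hk']
      subst hk'
      have := ne_shift k (t := i + k) (by omega) (by omega) (by omega)
      rw [Nat.add_sub_cancel] at this
      exact this h1

theorem sum_formula : ∀ K : ℕ, ∑ k ∈ Finset.range (K + 1), (2 * k - K) = (K + 1) ^ 2 / 4
  | 0 => by simp
  | 1 => by simp [Finset.sum_range_succ]
  | K + 2 => by
    have ih := sum_formula K
    rw [show K + 2 + 1 = (K + 1) + 1 + 1 by ring, Finset.sum_range_succ, Finset.sum_range_succ',
      show (K + 1 + 1 + 1) ^ 2 = (K + 1) ^ 2 + (K + 2) * 4 by ring,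
      Nat.add_mul_div_right _ _ (by norm_num), ← ih]
    have : ∀ k ∈ Finset.range (K + 1), 2 * (k + 1) - (K + 2) = 2 * k - K := by
      intro k _
      omega
    rw [Finset.sum_congr rfl this]
    omega

theorem card_pairs : (pairs K).card = (K + 1) ^ 2 / 4 := by
  unfold pairs
  rw [Finset.card_sigma, ← sum_formula K]
  apply Finset.sum_congr rfl
  intro k hk
  rw [Finset.mem_range] at hk
  rw [Nat.card_Ioc]
  omega

end Construction

theorem finite_classes {A : Type*} (s : List A) (P : List A → Prop) :
    (Quotient.mk (paramSetoid A) '' {w : List A | w <:+: s ∧ P w}).Finite := by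
  apply Set.Finite.image
  apply Set.Finite.subset (List.finite_toSet s.sublists)
  intro w hw
  exact List.mem_sublists.2 hw.1.sublist

/-- A finite family of pairwise inequivalent strings of the required kind bounds the number of
classes from below. -/
theorem card_le {A ι : Type*} (s : List A) (P : List A → Prop) (T : Finset ι) (φ : ι → List A)
    (h1 : ∀ p ∈ T, φ p <:+: s ∧ P (φ p))
    (h2 : ∀ p ∈ T, ∀ q ∈ T, ParamEq (φ p) (φ q) → p = q) :
    T.card ≤ Set.ncard (Quotient.mk (paramSetoid A) '' {w : List A | w <:+: s ∧ P w}) := by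
  classical
  have : T.card = (T.image (fun p => Quotient.mk (paramSetoid A) (φ p))).card := by
    rw [Finset.card_image_of_injOn]
    intro p hp q hq e
    exact h2 p hp q hq (Quotient.exact e)
  rw [this, ← Set.ncard_coe_finset]
  apply Set.ncard_le_ncard _ (finite_classes s P)
  intro c hc
  rw [Finset.coe_image] at hc
  obtain ⟨p, hp, rfl⟩ := hc
  exact ⟨φ p, h1 p hp, rfl⟩

/-- the eight windows of `abacbcba` used below -/
def smallWin (p : ℕ × ℕ) : List (Fin 3) :=
  (([0, 1, 0, 2, 1, 2, 1, 0] : List (Fin 3)).drop p.1).take (2 * p.2)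

/-- start and half length of the eight windows -/
def smallIdx : List (ℕ × ℕ) := [(0, 1), (0, 2), (1, 2), (2, 2), (3, 2), (0, 3), (2, 3), (0, 4)]

theorem small_square : ∀ p ∈ smallIdx, (smallWin p).take p.2 ≠ [] ∧
    ∃ f : Equiv.Perm (Fin 3), ((smallWin p).take p.2).map f = (smallWin p).drop p.2 := by
  decide

theorem small_ineq : ∀ p ∈ smallIdx, ∀ q ∈ smallIdx,
    (∃ f : Equiv.Perm (Fin 3), (smallWin p).map f = smallWin q) → p = q := by
  decide

theorem small_PS : 8 ≤ PS ([0, 1, 0, 2, 1, 2, 1, 0] : List (Fin 3)) := by
  have hc : smallIdx.toFinset.card = 8 := by decide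
  rw [← hc]
  refine card_le _ _ smallIdx.toFinset smallWin ?_ ?_
  · intro p hp
    rw [List.mem_toFinset] at hp
    refine ⟨((List.take_prefix _ _).isInfix).trans (List.drop_suffix _ _).isInfix, ?_⟩
    exact ⟨(smallWin p).take p.2, (smallWin p).drop p.2, (List.take_append_drop _ _).symm,
      (small_square p hp).1, (small_square p hp).2⟩
  · intro p hp q hq h
    exact small_ineq p (List.mem_toFinset.1 hp) q (List.mem_toFinset.1 hq) h

/-- For every `K ≥ 1` there is a string of length `3K` over `K + 1` letters with at least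
`⌊(K+1)²/4⌋` classes of parameterized squares, at least `⌊(K+1)²/4⌋ - 1` of which come from
parameterized squares `w w'` with `w ≠ w'`; consequently `PS(s) < n` fails for some strings, and
even `PS'(s) ≤ C n` fails for every constant `C`. Already the ternary string `abacbcba` of length
`8` has `PS ≥ 8`. -/
theorem result :
    (∀ K : ℕ, 1 ≤ K → ∃ s : List (Fin (K + 1)),
      s.length = 3 * K ∧ (K + 1) ^ 2 / 4 ≤ PS s ∧ (K + 1) ^ 2 / 4 - 1 ≤ PS' s) ∧
    (∀ C : ℕ, ∃ (σ : ℕ) (s : List (Fin σ)), s ≠ [] ∧ C * s.length < PS' s ∧
      C * s.length < PS s) ∧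
    (∃ s : List (Fin 3), s.length = 8 ∧ 8 ≤ PS s) := by
  have main : ∀ K : ℕ, 1 ≤ K → ∃ s : List (Fin (K + 1)),
      s.length = 3 * K ∧ (K + 1) ^ 2 / 4 ≤ PS s ∧ (K + 1) ^ 2 / 4 - 1 ≤ PS' s := by
    intro K hK
    refine ⟨win K 0 (3 * K), win_length K _ _, ?_, ?_⟩
    · rw [← card_pairs]
      exact card_le _ _ (pairs K) (pairWin K) (fun p hp => pairWin_square K hp)
        (fun p hp q hq h => pairWin_inj K hK hp hq h)
    · rw [← card_pairs]
      refine le_trans (Finset.pred_card_le_card_erase (a := ⟨K, K⟩)) ?_
      exact card_le _ _ ((pairs K).erase ⟨K, K⟩) (pairWin K) (fun p hp => pairWin_proper K hp)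
        (fun p hp q hq h => pairWin_inj K hK (Finset.mem_of_mem_erase hp)
          (Finset.mem_of_mem_erase hq) h)
  refine ⟨main, ?_, [0, 1, 0, 2, 1, 2, 1, 0], rfl, small_PS⟩
  intro C
  obtain ⟨s, hs, h1, h2⟩ := main (12 * C + 12) (by omega)
  refine ⟨_, s, ?_, ?_, ?_⟩
  · intro h
    rw [h] at hs
    simp at hs
  · rw [hs]
    have : C * (3 * (12 * C + 12)) + 2 ≤ (12 * C + 12 + 1) ^ 2 / 4 := by
      rw [Nat.le_div_iff_mul_le (by norm_num)]
      nlinarith
    omega
  · rw [hs]
    have : C * (3 * (12 * C + 12)) + 2 ≤ (12 * C + 12 + 1) ^ 2 / 4 := by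
      rw [Nat.le_div_iff_mul_le (by norm_num)]
      nlinarith
    omega

end Pool.Agent.Results.MP_435f72_co.QuadraticCount
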